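import Mathlib
import Pool.Agent.H410R3.AX.Defs
import Pool.Agent.H410R3.AX.Bwd3

/-!
# MP_e91f84_lc, Q2: `E_0` Borel reduces to topological conjugacy of Axiom A diffeomorphisms

The compact manifold is the two-dimensional torus `Circle × Circle`, so it is a compact surface.

Idea: `f_x(X, Y) = (g(X), g(Y) + 1/2 - δ_x(X))`, with `g` a circle diffeomorphism with a hyperbolic
attracting fixed point `0` and a hyperbolic repelling fixed point `1/2`. The nonwandering set
consists of four hyperbolic fixed points; an unstable separatrix of the saddle `(1/2, 0)` touches
the stable manifold of the saddle `(0, 1/2)` at the zeros of `δ_x`. These accumulate only at the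
orbit of one point, so a conjugacy preserves their numbering; between the zeros number `i` and
`i + 1`, the time at which the separatrix has entered a neighbourhood of the attracting fixed point
is known up to a bounded error (not depending on `i`), and it depends on `x i`. So conjugacy gives
`E_0`-equivalence. Conversely, if `x` and `y` differ at finitely many places, a conjugacy is built
fibre by fibre.
-/

open scoped Manifold ContDiff
open Pool.Agent.H410R3.AX

namespace Pool.Agent.Results.MP_e91f84_lc.E0AxiomATorus

/-- For `M = S¹ × S¹` there is a Borel map `φ` from `2^ℕ` to the set of the `C^∞` Axiom A
diffeomorphisms of `M` (with the `C^∞` topology) such that `x E_0 y` if and only if `φ x` and `φ y`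
are topologically conjugate. -/
theorem result : E0Embeds ((𝓡 1).prod (𝓡 1)) (Circle × Circle) :=
  main

end Pool.Agent.Results.MP_e91f84_lc.E0AxiomATorus
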